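import Mathlib

set_option autoImplicit false

namespace Pool.Agent.H.MP_6e06a5_co

open Finset
open scoped symmDiff

variable {V : Type} [DecidableEq V]

def bd (J : Finset (Sym2 V)) (v : V) : ZMod 2 := ∑ e ∈ J, if v ∈ e then 1 else 0

def dl (u : V) : V → ZMod 2 := fun v => if v = u then 1 else 0

theorem dl_add_self (u : V) : dl u + dl u = 0 := by
  ext v; simp only [dl, Pi.add_apply, Pi.zero_apply]; split_ifs <;> decide

theorem fun_add_self (f : V → ZMod 2) : f + f = 0 := by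
  ext v; simp [CharTwo.add_self_eq_zero]

theorem sum_symm {M : Type} [AddCommGroup M] (c : Sym2 V → M) (J K : Finset (Sym2 V)) :
    ∑ e ∈ J ∆ K, c e = ∑ e ∈ J, c e + ∑ e ∈ K, if e ∈ J then - c e else c e := by
  have h1 : ∑ e ∈ J ∆ K, c e = ∑ e ∈ J \ K, c e + ∑ e ∈ K \ J, c e := by
    rw [symmDiff_def, sup_eq_union, sum_union]
    exact disjoint_sdiff_sdiff
  have h2 : ∑ e ∈ J, c e = ∑ e ∈ J \ K, c e + ∑ e ∈ K ∩ J, c e := by
    rw [inter_comm, ← sum_sdiff (inter_subset_left : J ∩ K ⊆ J), sdiff_inter_self_left]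
  have h3 : (∑ e ∈ K, if e ∈ J then - c e else c e) = - ∑ e ∈ K ∩ J, c e + ∑ e ∈ K \ J, c e := by
    rw [sum_ite, ← sum_neg_distrib, filter_mem_eq_inter, sdiff_eq_filter]
  rw [h1, h2, h3]; abel

theorem bd_symm (J K : Finset (Sym2 V)) : bd (J ∆ K) = bd J + bd K := by
  ext v
  simp only [bd, Pi.add_apply, sum_symm]
  congr 1
  refine sum_congr rfl fun e _ => ?_
  split_ifs <;> decide

theorem bd_single (u v : V) (h : u ≠ v) : bd {s(u, v)} = dl u + dl v := by
  ext w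
  simp only [bd, dl, sum_singleton, Sym2.mem_iff, Pi.add_apply]
  by_cases h1 : w = u <;> by_cases h2 : w = v <;> simp_all

theorem bd_tog (J : Finset (Sym2 V)) (u v : V) (h : u ≠ v) :
    bd (J ∆ {s(u, v)}) = bd J + dl u + dl v := by
  rw [bd_symm, bd_single u v h, add_assoc]

theorem split (n : ℕ) : ∀ (H : Finset (Sym2 V)) (x : V), H.card = n → (∀ e ∈ H, ¬ e.IsDiag) →
    bd H x = 1 → ∃ F ⊆ H, ∃ y, y ≠ x ∧ bd H y = 1 ∧ bd F = dl x + dl y := by
  induction n with
  | zero =>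
    intro H x h _ hx
    rw [card_eq_zero] at h
    simp [h, bd] at hx
  | succ n ih =>
    intro H x h hd hx
    obtain ⟨e, he, hxe⟩ : ∃ e ∈ H, x ∈ e := by
      by_contra hc
      push Not at hc
      rw [bd, sum_eq_zero fun e he => if_neg (hc e he)] at hx
      exact absurd hx (by decide)
    obtain ⟨v, rfl⟩ := Sym2.mem_iff_exists.1 hxe
    have hv : x ≠ v := by simpa using hd _ he
    by_cases h1 : bd H v = 1
    · exact ⟨{s(x, v)}, by simpa using he, v, hv.symm, h1, bd_single _ _ hv⟩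
    have e1 : H.erase s(x, v) = H ∆ {s(x, v)} := by
      ext f; simp only [mem_erase, mem_symmDiff, mem_singleton]
      constructor
      · exact fun h => Or.inl ⟨h.2, h.1⟩
      · rintro (h | ⟨rfl, h⟩)
        · exact ⟨h.2, h.1⟩
        · exact absurd he h
    have e2 : bd (H.erase s(x, v)) = bd H + dl x + dl v := by rw [e1, bd_tog _ _ _ hv]
    have h0 : bd H v = 0 := by
      revert h1; generalize bd H v = z; revert z; decide
    obtain ⟨F, hF, y, hy, hy1, hb⟩ := ih (H.erase s(x, v)) v (by rw [card_erase_of_mem he]; omega)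
      (fun e he => hd e (mem_of_mem_erase he)) (by simp [e2, dl, h0, hv.symm])
    have hyx : y ≠ x := by
      rintro rfl
      simp only [e2, Pi.add_apply, hx, dl, if_true, if_neg hv] at hy1
      exact absurd hy1 (by decide)
    refine ⟨F ∆ {s(x, v)}, ?_, y, hyx, by simpa [e2, dl, hy, hyx] using hy1, ?_⟩
    · intro f hf
      rcases mem_symmDiff.1 hf with h | h
      · exact mem_of_mem_erase (hF h.1)
      · rw [mem_singleton.1 h.1]; exact he
    · rw [bd_tog _ _ _ hv, hb]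
      have := dl_add_self v
      linear_combination this

def wt (J S : Finset (Sym2 V)) : ℤ := ∑ e ∈ S, if e ∈ J then -1 else 1

theorem card_symm (J S : Finset (Sym2 V)) : ((J ∆ S).card : ℤ) = J.card + wt J S := by
  simpa [wt] using sum_symm (fun _ => (1 : ℤ)) J S

theorem wt_tog (J S : Finset (Sym2 V)) (e : Sym2 V) (h : e ∈ J) (h' : e ∉ S) :
    wt J (S ∆ {e}) = wt J S - 1 := by
  simp [wt, sum_symm, h, h', sub_eq_add_neg]

theorem card_tog_le (K : Finset (Sym2 V)) (e : Sym2 V) : ((K ∆ {e}).card : ℤ) ≤ K.card + 1 := by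
  rw [card_symm, wt, sum_singleton]; split_ifs <;> omega

theorem card_tog_mem (K : Finset (Sym2 V)) (e : Sym2 V) (h : e ∈ K) :
    ((K ∆ {e}).card : ℤ) = K.card - 1 := by
  rw [card_symm, wt, sum_singleton, if_pos h]; ring

def Sub (E : Set (Sym2 V)) (J : Finset (Sym2 V)) : Prop := ∀ e ∈ J, e ∈ E

theorem Sub.symm {E : Set (Sym2 V)} {J K : Finset (Sym2 V)} (h : Sub E J) (h' : Sub E K) :
    Sub E (J ∆ K) := fun e he => (mem_symmDiff.1 he).elim (fun x => h e x.1) fun x => h' e x.1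

theorem Sub.tog {E : Set (Sym2 V)} {J : Finset (Sym2 V)} (h : Sub E J) {e : Sym2 V} (h' : e ∈ E) :
    Sub E (J ∆ {e}) := h.symm fun f hf => by rw [mem_singleton.1 hf]; exact h'

/-- there is a join for `χ + r + y` with at most `m` edges -/
def N (E : Set (Sym2 V)) (χ : V → ZMod 2) (r y : V) (m : ℤ) : Prop :=
  ∃ K, Sub E K ∧ bd K = χ + dl r + dl y ∧ (K.card : ℤ) ≤ m

theorem N_step {E : Set (Sym2 V)} {χ : V → ZMod 2} {r x y : V} {m : ℤ} (hxy : x ≠ y)
    (he : s(x, y) ∈ E) (h : N E χ r y m) : N E χ r x (m + 1) := by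
  obtain ⟨K, h1, h2, h3⟩ := h
  refine ⟨K ∆ {s(x, y)}, h1.tog he, ?_, by linarith [card_tog_le K s(x, y)]⟩
  rw [bd_tog _ _ _ hxy, h2]
  linear_combination dl_add_self y

theorem F2 {E : Set (Sym2 V)} (hE : ∀ e ∈ E, ¬ e.IsDiag) {χ : V → ZMod 2} {J : Finset (Sym2 V)}
    (hJ : Sub E J) (hb : bd J = χ) (hmin : ∀ K, Sub E K → bd K = χ → J.card ≤ K.card)
    {r x a b : V} (hab : a ≠ b) (ha : s(x, a) ∈ J) (hb' : s(x, b) ∈ J)
    (na : ¬ N E χ r a (J.card - 2)) (nb : ¬ N E χ r b (J.card - 2)) :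
    ¬ N E χ r x (J.card - 1) := by
  rintro ⟨K, k1, k2, k3⟩
  have xa : x ≠ a := by simpa using hE _ (hJ _ ha)
  have xb : x ≠ b := by simpa using hE _ (hJ _ hb')
  have W0 : ∀ S, Sub E S → bd S = 0 → 0 ≤ wt J S := by
    intro S h1 h2
    have := hmin _ (hJ.symm h1) (by rw [bd_symm, h2, hb, add_zero])
    have h3 := card_symm J S
    omega
  have W1 : ∀ S y, Sub E S → bd S = dl r + dl y → N E χ r y (J.card + wt J S) := fun S y h1 h2 =>
    ⟨J ∆ S, hJ.symm h1, by rw [bd_symm, h2, hb, add_assoc], (card_symm J S).le⟩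
  by_cases hr : x = r
  · subst hr
    have := hmin K k1 (by rw [k2, add_assoc, dl_add_self, add_zero])
    omega
  by_cases ka : s(x, a) ∈ K
  · refine na ⟨K ∆ {s(x, a)}, k1.tog (hJ _ ha), ?_, by rw [card_tog_mem _ _ ka]; omega⟩
    rw [bd_tog _ _ _ xa, k2]; linear_combination dl_add_self x
  by_cases kb : s(x, b) ∈ K
  · refine nb ⟨K ∆ {s(x, b)}, k1.tog (hJ _ hb'), ?_, by rw [card_tog_mem _ _ kb]; omega⟩
    rw [bd_tog _ _ _ xb, k2]; linear_combination dl_add_self x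
  have ne : s(x, a) ≠ s(x, b) := by simp [hab, xb]
  set H := ((J ∆ K) ∆ {s(x, a)}) ∆ {s(x, b)} with hH
  have Ha : s(x, a) ∉ H := by simp [hH, mem_symmDiff, ha, ka, ne]
  have Hb : s(x, b) ∉ H := by simp [hH, mem_symmDiff, hb', kb, ne.symm]
  have sH : Sub E H := ((hJ.symm k1).tog (hJ _ ha)).tog (hJ _ hb')
  have bH : bd H = dl r + dl x + dl a + dl b := by
    rw [hH, bd_tog _ _ _ xb, bd_tog _ _ _ xa, bd_symm, hb, k2]
    linear_combination fun_add_self χ + dl_add_self x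
  have wH : wt J H ≤ 1 := by
    have h1 := card_symm J H
    have h2 : J ∆ H = (K ∆ {s(x, a)}) ∆ {s(x, b)} := by
      rw [hH, ← symmDiff_assoc, ← symmDiff_assoc, symmDiff_symmDiff_cancel_left]
    have h3 := card_tog_le K s(x, a)
    have h4 := card_tog_le (K ∆ {s(x, a)}) s(x, b)
    rw [h2] at h1
    omega
  obtain ⟨F, hF, y, hy, hy1, bF⟩ := split _ H x rfl (fun e he => hE e (sH e he))
    (by simp [bH, dl, hr, xa, xb])
  have sF : Sub E F := fun e he => sH e (hF he)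
  have sG : Sub E (H \ F) := fun e he => sH e (mem_sdiff.1 he).1
  have bG : bd (H \ F) = dl r + dl a + dl b + dl y := by
    have : H \ F = H ∆ F := (symmDiff_of_ge hF).symm
    rw [this, bd_symm, bH, bF]
    linear_combination dl_add_self x
  have wG : wt J (H \ F) + wt J F = wt J H := sum_sdiff hF
  have Fa : s(x, a) ∉ F := fun h => Ha (hF h)
  have Fb : s(x, b) ∉ F := fun h => Hb (hF h)
  have Ga : s(x, a) ∉ H \ F := fun h => Ha (mem_sdiff.1 h).1
  have Gb : s(x, b) ∉ (H \ F) ∆ {s(x, a)} := by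
    simp [mem_symmDiff, Hb, ne.symm]
  have w2 : wt J (((H \ F) ∆ {s(x, a)}) ∆ {s(x, b)}) = wt J (H \ F) - 2 := by
    rw [wt_tog _ _ _ hb' Gb, wt_tog _ _ _ ha Ga]; ring
  have s2 := (sG.tog (hJ _ ha)).tog (hJ _ hb')
  have b2 : bd (((H \ F) ∆ {s(x, a)}) ∆ {s(x, b)}) = dl r + dl y := by
    rw [bd_tog _ _ _ xb, bd_tog _ _ _ xa, bG]
    linear_combination dl_add_self x + dl_add_self a + dl_add_self b
  have mono : ∀ y m m', m ≤ m' → N E χ r y m → N E χ r y m' := fun y m m' h ⟨K, a, b, c⟩ =>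
    ⟨K, a, b, c.trans h⟩
  have : y = r ∨ y = a ∨ y = b := by
    by_contra hc
    push Not at hc
    simp [bH, dl, hy, hc.1, hc.2.1, hc.2.2] at hy1
  rcases this with rfl | rfl | rfl
  · have h1 := W0 _ s2 (by rw [b2, dl_add_self])
    refine na (mono _ _ _ ?_ (W1 (F ∆ {s(x, a)}) a (sF.tog (hJ _ ha)) ?_))
    · rw [wt_tog _ _ _ ha Fa]; omega
    · rw [bd_tog _ _ _ xa, bF]; linear_combination dl_add_self x
  · have h1 := W0 _ (sF.tog (hJ _ ha)) (by
      rw [bd_tog _ _ _ xa, bF]; linear_combination dl_add_self x + dl_add_self y)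
    rw [wt_tog _ _ _ ha Fa] at h1
    exact na (mono _ _ _ (by omega) (W1 _ _ s2 b2))
  · have h1 := W0 _ (sF.tog (hJ _ hb')) (by
      rw [bd_tog _ _ _ xb, bF]; linear_combination dl_add_self x + dl_add_self y)
    rw [wt_tog _ _ _ hb' Fb] at h1
    exact nb (mono _ _ _ (by omega) (W1 _ _ s2 b2))

end Pool.Agent.H.MP_6e06a5_co
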