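import Mathlib
import Pool.Agent.H.MP_6e06a5_co.A

set_option autoImplicit false
set_option linter.unusedSectionVars false
set_option linter.unusedSimpArgs false

namespace Pool.Agent.H.MP_6e06a5_co

open Finset
open scoped symmDiff

variable {V : Type} [DecidableEq V] [AddCommGroup V]

structure Dir (d : ZMod 4 → V) : Prop where
  neg : ∀ k, d (k + 2) = - d k
  inj : Function.Injective d

variable {d : ZMod 4 → V}

theorem Dir.ne0 (h : Dir d) (k : ZMod 4) : d k ≠ 0 := by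
  intro h0
  have := h.inj (show d (k + 2) = d k by rw [h.neg, h0, neg_zero])
  exact (by decide : ∀ k : ZMod 4, k + 2 ≠ k) k this

theorem Dir.neg3 (h : Dir d) (k : ZMod 4) : d (k + 3) = - d (k + 1) := by
  rw [← h.neg]; congr 1; ring

theorem Dir.diag0 (h : Dir d) (k : ZMod 4) : d k + d (k + 1) ≠ 0 := by
  intro h0
  have := h.inj (show d (k + 3) = d k by rw [h.neg3]; exact (eq_neg_of_add_eq_zero_left h0).symm)
  exact (by decide : ∀ k : ZMod 4, k + 3 ≠ k) k this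

def ed (d : ZMod 4 → V) (v : V) (k : ZMod 4) : Sym2 V := s(v, v + d k)

def EE (d : ZMod 4 → V) : Set (Sym2 V) := {e | ∃ v k, e = ed d v k}

theorem Dir.ed_inj (h : Dir d) (v : V) : Function.Injective (ed d v) := by
  intro k j e
  simp only [ed, Sym2.eq_iff, true_and, add_right_inj] at e
  rcases e with e | e
  · exact h.inj e
  · exact absurd (by simpa using e.2) (h.ne0 k)

theorem Dir.notDiag (h : Dir d) : ∀ e ∈ EE d, ¬ e.IsDiag := by
  rintro e ⟨v, k, rfl⟩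
  simpa [ed] using h.ne0 k

theorem Dir.card_local (h : Dir d) {J : Finset (Sym2 V)} (hJ : Sub (EE d) J) (v : V) :
    (J.filter (v ∈ ·)).card = (univ.filter (ed d v · ∈ J)).card := by
  rw [← card_image_of_injective _ (h.ed_inj v)]
  congr 1
  ext e
  simp only [mem_filter, mem_image, mem_univ, true_and]
  constructor
  · rintro ⟨he, hv⟩
    obtain ⟨u, k, rfl⟩ := hJ e he
    rcases Sym2.mem_iff.1 hv with rfl | rfl
    · exact ⟨k, he, rfl⟩
    · have : ed d (u + d k) (k + 2) = ed d u k := by simp [ed, h.neg, Sym2.eq_swap]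
      exact ⟨k + 2, this ▸ he, this⟩
  · rintro ⟨k, hk, rfl⟩
    exact ⟨hk, by simp [ed]⟩

theorem sum4 {M : Type} [AddCommMonoid M] (f : ZMod 4 → M) (a : ZMod 4) :
    ∑ k, f k = f a + f (a + 1) + f (a + 2) + f (a + 3) := by
  rw [← Equiv.sum_comp (Equiv.addLeft a) f]
  refine (Fin.sum_univ_four (fun k : Fin 4 => f (Equiv.addLeft a k))).trans ?_
  change f (a + 0) + f (a + 1) + f (a + 2) + f (a + 3) = _
  rw [add_zero]

theorem Dir.bd_local (h : Dir d) {J : Finset (Sym2 V)} (hJ : Sub (EE d) J) (v : V) (a : ZMod 4) :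
    bd J v = (if ed d v a ∈ J then 1 else 0) + (if ed d v (a + 1) ∈ J then 1 else 0) +
      (if ed d v (a + 2) ∈ J then 1 else 0) + (if ed d v (a + 3) ∈ J then 1 else 0) := by
  rw [bd, sum_boole, h.card_local hJ, ← sum_boole, sum4 _ a]

def nx (d : ZMod 4 → V) (x : V) (a : ZMod 4) : V := x + d a + d (a + 1)

def pl (d : ZMod 4 → V) (x : V) (a : ZMod 4) : Finset (Sym2 V) :=
  {ed d x a, ed d x (a + 1), ed d (nx d x a) (a + 2), ed d (nx d x a) (a + 3)}

theorem Dir.e3 (h : Dir d) (x : V) (a : ZMod 4) :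
    ed d (nx d x a) (a + 2) = s(nx d x a, x + d (a + 1)) := by
  simp only [ed, nx, h.neg]; congr 1; abel

theorem Dir.e4 (h : Dir d) (x : V) (a : ZMod 4) :
    ed d (nx d x a) (a + 3) = s(nx d x a, x + d a) := by
  simp only [ed, nx, h.neg3]; congr 1; abel

theorem Dir.facts (h : Dir d) (x : V) (a : ZMod 4) :
    nx d x a ≠ x ∧ nx d x a ≠ x + d a ∧ nx d x a ≠ x + d (a + 1) ∧ x ≠ x + d a ∧
      x ≠ x + d (a + 1) ∧ x + d a ≠ x + d (a + 1) := by
  refine ⟨?_, ?_, ?_, ?_, ?_, ?_⟩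
  · simpa [nx, add_assoc] using h.diag0 a
  · simpa [nx] using h.ne0 _
  · simpa [nx, add_right_comm x (d a)] using h.ne0 _
  · simpa using h.ne0 _
  · simpa using h.ne0 _
  · intro e
    have := h.inj (add_left_cancel e)
    exact (by decide : ∀ k : ZMod 4, k ≠ k + 1) a this

theorem Dir.sumP (h : Dir d) {M : Type} [AddCommMonoid M] (x : V) (a : ZMod 4) (f : Sym2 V → M) :
    ∑ e ∈ pl d x a, f e = f (ed d x a) + f (ed d x (a + 1)) + f (ed d (nx d x a) (a + 2)) +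
      f (ed d (nx d x a) (a + 3)) := by
  obtain ⟨f1, f2, f3, f4, f5, f6⟩ := h.facts x a
  rw [pl, h.e3, h.e4, ed, ed]
  generalize nx d x a = y at *
  generalize x + d a = p at *
  generalize x + d (a + 1) = q at *
  rw [sum_insert, sum_insert, sum_insert, sum_singleton]
  · abel
  all_goals simp [f1, f2, f3, f4, f5, f6, f1.symm, f2.symm, f3.symm, f4.symm, f5.symm, f6.symm]

theorem Dir.bdP (h : Dir d) (x : V) (a : ZMod 4) : bd (pl d x a) = 0 := by
  obtain ⟨f1, f2, f3, f4, f5, f6⟩ := h.facts x a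
  ext v
  rw [bd, h.sumP, h.e3, h.e4, ed, ed]
  generalize nx d x a = y at *
  generalize x + d a = p at *
  generalize x + d (a + 1) = q at *
  have b1 := congrFun (bd_single _ _ f4) v
  have b2 := congrFun (bd_single _ _ f5) v
  have b3 := congrFun (bd_single _ _ f3) v
  have b4 := congrFun (bd_single _ _ f2) v
  simp only [bd, sum_singleton] at b1 b2 b3 b4
  rw [b1, b2, b3, b4]
  have := congrFun (dl_add_self x) v
  have := congrFun (dl_add_self y) v
  have := congrFun (dl_add_self p) v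
  have := congrFun (dl_add_self q) v
  simp only [Pi.add_apply, Pi.zero_apply] at *
  linear_combination ‹dl x v + _ = _› + ‹dl y v + _ = _› + ‹dl p v + _ = _› + ‹dl q v + _ = _›

theorem subP (x : V) (a : ZMod 4) : Sub (EE d) (pl d x a) := by
  intro e he
  simp only [pl, mem_insert, mem_singleton] at he
  rcases he with rfl | rfl | rfl | rfl <;> exact ⟨_, _, rfl⟩

theorem Dir.whiteP (h : Dir d) (x : V) (a : ZMod 4) (e : Sym2 V) (he : e ∈ pl d x a) :
    (x + d a ∈ e ∨ x + d (a + 1) ∈ e) ∧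
      ∀ u ∈ e, u = x ∨ u = nx d x a ∨ u = x + d a ∨ u = x + d (a + 1) := by
  simp only [pl, mem_insert, mem_singleton, h.e3, h.e4] at he
  rcases he with rfl | rfl | rfl | rfl <;> simp [ed]

def chi (D : Finset V) : V → ZMod 2 := fun v => if v ∈ D then 1 else 0

def cD (D : Finset V) (e : Sym2 V) : ℤ := ∑ v ∈ D, if v ∈ e then 1 else 0

theorem cD_pair (D : Finset V) (u v : V) (h : u ≠ v) :
    cD D s(u, v) = (if u ∈ D then 1 else 0) + if v ∈ D then 1 else 0 := by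
  have : ∀ w, (if w ∈ s(u, v) then (1 : ℤ) else 0) =
      (if w = u then 1 else 0) + if w = v then 1 else 0 := by
    intro w
    by_cases h1 : w = u <;> by_cases h2 : w = v <;> simp_all
  simp only [cD, this, sum_add_distrib, sum_ite_eq']

structure Opt (d : ZMod 4 → V) (D : Finset V) (τ : ℕ) (φ : ℤ) : Prop where
  m1 : ∀ K, Sub (EE d) K → bd K = chi D → τ ≤ K.card
  m2 : ∀ K, Sub (EE d) K → bd K = chi D → K.card = τ → φ ≤ ∑ e ∈ K, cD D e

structure Good (d : ZMod 4 → V) (D : Finset V) (τ : ℕ) (φ : ℤ) (J : Finset (Sym2 V)) (x : V)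
    (a r : ZMod 4) : Prop where
  sub : Sub (EE d) J
  b : bd J = chi D
  c : J.card = τ
  p : ∑ e ∈ J, cD D e = φ
  xD : x ∈ D
  m1 : ed d x a ∈ J
  m2 : ed d x (a + 1) ∈ J
  m3 : ed d x r ∈ J
  hr : r = a + 2 ∨ r = a + 3

theorem Good.after {D : Finset V} {τ : ℕ} {φ : ℤ} {J : Finset (Sym2 V)} {x : V} {a r : ZMod 4}
    (h : Dir d) (g : Good d D τ φ J x a r) (k : ZMod 4) : ed d x k ∈ J ∆ pl d x a ↔ k = r := by
  obtain ⟨f1, f2, f3, f4, f5, f6⟩ := h.facts x a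
  have hb := h.bd_local g.sub x a
  rw [g.b, chi, if_pos g.xD, if_pos g.m1, if_pos g.m2] at hb
  have hp : ed d x k ∈ pl d x a ↔ k = a ∨ k = a + 1 := by
    simp only [pl, mem_insert, mem_singleton, (h.ed_inj x).eq_iff, h.e3, h.e4]
    simp [ed, f1.symm, f4, f5, h.ne0]
  have hk : ∀ a k : ZMod 4, k = a ∨ k = a + 1 ∨ k = a + 2 ∨ k = a + 3 := by decide
  have hn : ∀ a : ZMod 4, a ≠ a + 1 ∧ a ≠ a + 2 ∧ a ≠ a + 3 ∧ a + 1 ≠ a + 2 ∧ a + 1 ≠ a + 3 ∧
    a + 2 ≠ a + 3 := by decide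
  obtain ⟨n1, n2, n3, n4, n5, n6⟩ := hn a
  have m1 := g.m1
  have m2 := g.m2
  have m3 := g.m3
  rw [mem_symmDiff, hp]
  rcases g.hr with rfl | rfl
  · have : ed d x (a + 3) ∉ J := by
      intro hh; rw [if_pos m3, if_pos hh] at hb; exact absurd hb (by decide)
    rcases hk a k with rfl | rfl | rfl | rfl <;> simp_all [eq_comm]
  · have : ed d x (a + 2) ∉ J := by
      intro hh; rw [if_pos m3, if_pos hh] at hb; exact absurd hb (by decide)
    rcases hk a k with rfl | rfl | rfl | rfl <;> simp_all [eq_comm]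

theorem Good.step {D : Finset V} {τ : ℕ} {φ : ℤ} {J : Finset (Sym2 V)} {x : V} {a r : ZMod 4}
    (h : Dir d) (o : Opt d D τ φ) (g : Good d D τ φ J x a r) :
    ∃ a' r', Good d D τ φ (J ∆ pl d x a) (nx d x a) a' r' ∧
      ((a' = a + 3 ∧ r' = a + 2) ∨ (a' = a + 1 ∧ r' = a + 3)) ∧ ed d (nx d x a) (r' + 2) ∈ J := by
  obtain ⟨f1, f2, f3, f4, f5, f6⟩ := h.facts x a
  have s1 := g.sub.symm (subP x a)
  have b1 : bd (J ∆ pl d x a) = chi D := by rw [bd_symm, h.bdP, add_zero, g.b]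
  have c1 := card_symm J (pl d x a)
  have c2 := o.m1 _ s1 b1
  rw [wt, h.sumP, if_pos g.m1, if_pos g.m2, g.c] at c1
  have n3 : ed d (nx d x a) (a + 2) ∉ J := by
    intro hh; rw [if_pos hh] at c1; split_ifs at c1 <;> omega
  have n4 : ed d (nx d x a) (a + 3) ∉ J := by
    intro hh; rw [if_pos hh] at c1; split_ifs at c1 <;> omega
  rw [if_neg n3, if_neg n4] at c1
  have c3 : (J ∆ pl d x a).card = τ := by omega
  have p1 := sum_symm (cD D) J (pl d x a)
  have p2 := o.m2 _ s1 b1 c3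
  rw [h.sumP, if_pos g.m1, if_pos g.m2, if_neg n3, if_neg n4, g.p, h.e3, h.e4, ed, ed,
    cD_pair _ _ _ f4, cD_pair _ _ _ f5, cD_pair _ _ _ f3, cD_pair _ _ _ f2, if_pos g.xD] at p1
  have xD : nx d x a ∈ D := by
    by_contra hh; rw [if_neg hh] at p1; omega
  rw [if_pos xD] at p1
  have p3 : ∑ e ∈ J ∆ pl d x a, cD D e = φ := by omega
  have hb := h.bd_local g.sub (nx d x a) a
  rw [g.b, chi, if_pos xD, if_neg n3, if_neg n4] at hb
  have hp : ∀ k, ed d (nx d x a) k ∈ pl d x a ↔ k = a + 2 ∨ k = a + 3 := by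
    intro k
    simp only [pl, mem_insert, mem_singleton, (h.ed_inj _).eq_iff]
    simp [ed, f1, f2, f3]
  have hn : ∀ a : ZMod 4, a ≠ a + 2 ∧ a ≠ a + 3 ∧ a + 1 ≠ a + 2 ∧ a + 1 ≠ a + 3 ∧
    a + 3 + 1 = a ∧ a + 2 + 2 = a ∧ a + 1 + 1 = a + 2 ∧ a + 3 + 2 = a + 1 ∧
    a + 2 = a + 3 + 3 ∧ a + 3 = a + 1 + 2 := by decide
  obtain ⟨q1, q2, q3, q4, q5, q6, q7, q8, q9, q10⟩ := hn a
  have i2 : ed d (nx d x a) (a + 2) ∈ J ∆ pl d x a := by rw [mem_symmDiff, hp]; simp [n3]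
  have i3 : ed d (nx d x a) (a + 3) ∈ J ∆ pl d x a := by rw [mem_symmDiff, hp]; simp [n4]
  by_cases ha : ed d (nx d x a) a ∈ J
  · refine ⟨a + 3, a + 2, ⟨s1, b1, c3, p3, xD, i3, ?_, i2, Or.inr q9⟩, Or.inl ⟨rfl, rfl⟩, ?_⟩
    · rw [q5, mem_symmDiff, hp]; exact Or.inl ⟨ha, by simp [q1, q2]⟩
    · rwa [q6]
  · have hb' : ed d (nx d x a) (a + 1) ∈ J := by
      by_contra hh; rw [if_neg ha, if_neg hh] at hb; exact absurd hb (by decide)
    refine ⟨a + 1, a + 3, ⟨s1, b1, c3, p3, xD, ?_, ?_, i3, Or.inl q10⟩, Or.inr ⟨rfl, rfl⟩, ?_⟩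
    · rw [mem_symmDiff, hp]; exact Or.inl ⟨hb', by rintro (e | e); exacts [q3 e, q4 e]⟩
    · rwa [q7]
    · rwa [q8]

end Pool.Agent.H.MP_6e06a5_co
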