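import Mathlib
import Pool.Agent.H.MP_6e06a5_co.B

set_option autoImplicit false
set_option linter.unusedSectionVars false
set_option linter.unusedSimpArgs false

namespace Pool.Agent.H.MP_6e06a5_co

open Finset
open scoped symmDiff

variable {V : Type} [DecidableEq V] [AddCommGroup V] {d : ZMod 4 → V}

structure Run (d : ZMod 4 → V) (D : Finset V) (τ : ℕ) (φ : ℤ) (J : ℕ → Finset (Sym2 V))
    (x : ℕ → V) (a r : ℕ → ZMod 4) : Prop where
  dir : Dir d
  opt : Opt d D τ φ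
  g : ∀ s, Good d D τ φ (J s) (x s) (a s) (r s)
  sJ : ∀ s, J (s + 1) = J s ∆ pl d (x s) (a s)
  sx : ∀ s, x (s + 1) = nx d (x s) (a s)
  sa : ∀ s, (a (s + 1) = a s + 3 ∧ r (s + 1) = a s + 2) ∨ (a (s + 1) = a s + 1 ∧ r (s + 1) = a s + 3)
  pre : ∀ s, ed d (x (s + 1)) (r (s + 1) + 2) ∈ J s

theorem exists_run {D : Finset V} {τ : ℕ} {φ : ℤ} (h : Dir d) (o : Opt d D τ φ)
    {J0 : Finset (Sym2 V)} {x0 : V} {a0 r0 : ZMod 4} (g : Good d D τ φ J0 x0 a0 r0) :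
    ∃ J x a r, Run d D τ φ J x a r := by
  let S := {z : Finset (Sym2 V) × V × ZMod 4 × ZMod 4 // Good d D τ φ z.1 z.2.1 z.2.2.1 z.2.2.2}
  have st : ∀ z : S, ∃ w : S, w.1.1 = z.1.1 ∆ pl d z.1.2.1 z.1.2.2.1 ∧
      w.1.2.1 = nx d z.1.2.1 z.1.2.2.1 ∧
      ((w.1.2.2.1 = z.1.2.2.1 + 3 ∧ w.1.2.2.2 = z.1.2.2.1 + 2) ∨
        (w.1.2.2.1 = z.1.2.2.1 + 1 ∧ w.1.2.2.2 = z.1.2.2.1 + 3)) ∧
      ed d w.1.2.1 (w.1.2.2.2 + 2) ∈ z.1.1 := by
    intro z
    obtain ⟨a', r', g', h1, h2⟩ := z.2.step h o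
    exact ⟨⟨(_, _, a', r'), g'⟩, rfl, rfl, h1, h2⟩
  choose f hf using st
  let z : ℕ → S := fun n => f^[n] ⟨(J0, x0, a0, r0), g⟩
  have hz : ∀ n, z (n + 1) = f (z n) := fun n => Function.iterate_succ_apply' _ _ _
  refine ⟨fun n => (z n).1.1, fun n => (z n).1.2.1, fun n => (z n).1.2.2.1, fun n => (z n).1.2.2.2,
    h, o, fun s => (z s).2, ?_, ?_, ?_, ?_⟩ <;> intro s <;> simp only [hz]
  exacts [(hf _).1, (hf _).2.1, (hf _).2.2.1, (hf _).2.2.2]

variable {D : Finset V} {τ : ℕ} {φ : ℤ} {J : ℕ → Finset (Sym2 V)} {x : ℕ → V} {a r : ℕ → ZMod 4}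

def White (d : ZMod 4 → V) (J : ℕ → Finset (Sym2 V)) (x : ℕ → V) (s : ℕ) (y : V) : Prop :=
  ∃ t ≤ s, ∃ k, ed d (x t) k ∈ J t ∧ y = x t + d k

theorem White.mono {s t : ℕ} {y : V} (h : s ≤ t) (w : White d J x s y) : White d J x t y := by
  obtain ⟨u, hu, k⟩ := w
  exact ⟨u, hu.trans h, k⟩

theorem Run.inv (R : Run d D τ φ J x a r) (s : ℕ) :
    (∀ t ≤ s, ¬ N (EE d) (chi D) (x 0) (x t) (τ - 1)) ∧
    ∀ y, White d J x s y → ∃ K, Sub (EE d) K ∧ bd K = chi D + dl (x 0) + dl y ∧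
      (K.card : ℤ) ≤ τ - 1 ∧ ∀ e ∈ K ∆ J s, ∃ w ∈ e, White d J x s w := by
  have h := R.dir
  induction s with
  | zero =>
    constructor
    · rintro t ht ⟨K, k1, k2, k3⟩
      obtain rfl : t = 0 := by omega
      have := R.opt.m1 K k1 (by rw [k2, add_assoc, dl_add_self, add_zero])
      omega
    · rintro y ⟨t, ht, k, hk, rfl⟩
      obtain rfl : t = 0 := by omega
      refine ⟨J 0 ∆ {ed d (x 0) k}, (R.g 0).sub.tog ⟨_, _, rfl⟩, ?_, ?_, ?_⟩
      · rw [ed, bd_tog _ _ _ (by simpa using h.ne0 k), (R.g 0).b]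
      · rw [card_tog_mem _ _ hk, (R.g 0).c]
      · intro e he
        rw [symmDiff_comm, symmDiff_symmDiff_cancel_left, mem_singleton] at he
        exact ⟨x 0 + d k, by simp [he, ed], 0, le_rfl, k, hk, rfl⟩
  | succ s ih =>
    obtain ⟨ih1, ih2⟩ := ih
    have g := R.g s
    have g' := R.g (s + 1)
    obtain ⟨f1, f2, f3, f4, f5, f6⟩ := h.facts (x s) (a s)
    have wa : White d J x s (x s + d (a s)) := ⟨s, le_rfl, _, g.m1, rfl⟩
    have wb : White d J x s (x s + d (a s + 1)) := ⟨s, le_rfl, _, g.m2, rfl⟩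
    have old : ∀ y, White d J x s y → ∃ K, Sub (EE d) K ∧ bd K = chi D + dl (x 0) + dl y ∧
        (K.card : ℤ) ≤ τ - 1 ∧ ∀ e ∈ K ∆ J (s + 1), ∃ w ∈ e, White d J x s w := by
      intro y hy
      obtain ⟨K, k1, k2, k3, k4⟩ := ih2 y hy
      refine ⟨K, k1, k2, k3, fun e he => ?_⟩
      rw [R.sJ, ← symmDiff_assoc] at he
      rcases mem_symmDiff.1 he with he | he
      · exact k4 e he.1
      · rcases (h.whiteP _ _ e he.1).1 with h1 | h1
        exacts [⟨_, h1, wa⟩, ⟨_, h1, wb⟩]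
    have blk : ¬ N (EE d) (chi D) (x 0) (x (s + 1)) (τ - 1) := by
      have n3 : s(x (s + 1), x s + d (a s + 1)) ∈ J (s + 1) ∧
          s(x (s + 1), x s + d (a s)) ∈ J (s + 1) := by
        have m1 := g'.m1
        have m2 := g'.m2
        have m3 := g'.m3
        rw [R.sx, ← h.e3, ← h.e4, ← R.sx]
        rcases R.sa s with ⟨e1, e2⟩ | ⟨e1, e2⟩
        · exact ⟨e2 ▸ m3, e1 ▸ m1⟩
        · rw [e1, add_assoc] at m2
          exact ⟨m2, e2 ▸ m3⟩
      have := F2 h.notDiag g'.sub g'.b (fun K k1 k2 => g'.c ▸ R.opt.m1 K k1 k2) (r := x 0) f6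
        n3.2 n3.1
      rw [g'.c] at this
      refine this (fun hn => ih1 s le_rfl ?_) (fun hn => ih1 s le_rfl ?_)
      · simpa [sub_add_eq_add_sub, add_sub_assoc, ← sub_eq_add_neg] using
          (show N _ _ _ _ ((τ : ℤ) - 1) from
            (by ring : (τ : ℤ) - 2 + 1 = τ - 1) ▸ N_step f4 ⟨_, _, rfl⟩ hn)
      · exact (by ring : (τ : ℤ) - 2 + 1 = τ - 1) ▸ N_step f5 ⟨_, _, rfl⟩ hn
    refine ⟨fun t ht => ?_, fun y hy => ?_⟩
    · rcases Nat.of_le_succ ht with ht | rfl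
      exacts [ih1 t ht, blk]
    by_cases hw : White d J x s y
    · obtain ⟨K, k1, k2, k3, k4⟩ := old y hw
      exact ⟨K, k1, k2, k3, fun e he => (k4 e he).imp fun w hw => ⟨hw.1, hw.2.mono (by omega)⟩⟩
    obtain ⟨t, ht, k, hk, rfl⟩ := hy
    obtain rfl : t = s + 1 := by
      by_contra hc
      exact hw ⟨t, by omega, k, hk, rfl⟩
    have nw : ¬ White d J x s (x (s + 1)) := fun hh => by
      obtain ⟨K, k1, k2, k3, -⟩ := ih2 _ hh
      exact blk ⟨K, k1, k2, k3⟩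
    obtain ⟨K, k1, k2, k3, k4⟩ := old _ wa
    have hK : ed d (x (s + 1)) k ∈ K := by
      by_contra hc
      obtain ⟨w, hw1, hw2⟩ := k4 _ (mem_symmDiff.2 (Or.inr ⟨hk, hc⟩))
      rcases Sym2.mem_iff.1 hw1 with rfl | rfl
      exacts [nw hw2, hw hw2]
    have e4 := h.e4 (x s) (a s)
    rw [← R.sx] at e4 f2
    refine ⟨(K ∆ {ed d (x (s + 1)) k}) ∆ {s(x (s + 1), x s + d (a s))},
      (k1.tog ⟨_, _, rfl⟩).tog ⟨_, _, e4.symm⟩, ?_, ?_, fun e he => ?_⟩
    · rw [bd_tog _ _ _ f2, ed, bd_tog _ _ _ (by simpa using h.ne0 k), k2]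
      linear_combination dl_add_self (x (s + 1)) + dl_add_self (x s + d (a s))
    · have := card_tog_le (K ∆ {ed d (x (s + 1)) k}) s(x (s + 1), x s + d (a s))
      rw [card_tog_mem _ _ hK] at this
      omega
    · by_cases h1 : e = ed d (x (s + 1)) k
      · exact ⟨x (s + 1) + d k, by simp [h1, ed], s + 1, le_rfl, k, hk, rfl⟩
      by_cases h2 : e = s(x (s + 1), x s + d (a s))
      · exact ⟨_, by simp [h2], wa.mono (by omega)⟩
      obtain ⟨w, w1, w2⟩ := k4 e (by simpa [mem_symmDiff, h1, h2] using he)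
      exact ⟨w, w1, w2.mono (by omega)⟩

theorem Run.bw (R : Run d D τ φ J x a r) (s t : ℕ) (k : ZMod 4) (hk : ed d (x t) k ∈ J t) :
    x s ≠ x t + d k := by
  intro e
  obtain ⟨h1, h2⟩ := R.inv (max s t)
  obtain ⟨K, k1, k2, k3, -⟩ := h2 _ ⟨t, le_max_right _ _, k, hk, rfl⟩
  exact h1 s (le_max_left _ _) ⟨K, k1, e ▸ k2, k3⟩

theorem Run.keep (R : Run d D τ φ J x a r) (s t : ℕ) (h1 : x t ≠ x s) (h2 : x (t + 1) ≠ x s)
    (k : ZMod 4) : ed d (x s) k ∈ J (t + 1) ↔ ed d (x s) k ∈ J t := by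
  have : ed d (x s) k ∉ pl d (x t) (a t) := by
    intro hh
    rcases (R.dir.whiteP _ _ _ hh).2 (x s) (by simp [ed]) with e | e | e | e
    · exact h1 e.symm
    · exact h2 (by rw [R.sx, e])
    · exact R.bw s t _ (R.g t).m1 e
    · exact R.bw s t _ (R.g t).m2 e
  simp [R.sJ, mem_symmDiff, this]

theorem Run.next (R : Run d D τ φ J x a r) (s n : ℕ) (h : ∀ t, s < t → t ≤ s + n + 1 → x t ≠ x s)
    (k : ZMod 4) : ed d (x s) k ∈ J (s + n + 1) ↔ k = r s := by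
  induction n with
  | zero => rw [add_zero, R.sJ]; exact (R.g s).after R.dir k
  | succ n ih =>
    rw [← add_assoc, R.keep s _ (h _ (by omega) (by omega)) (h _ (by omega) (by omega))]
    exact ih fun t h1 h2 => h t h1 (by omega)

theorem Run.cons (R : Run d D τ φ J x a r) (s t : ℕ) (hst : s < t) (e : x t = x s)
    (h : ∀ u, s < u → u < t → x u ≠ x s) : s + 1 < t ∧ r t = r s + 2 := by
  have h1 : s + 1 ≠ t := by
    rintro rfl
    exact (R.dir.facts (x s) (a s)).1 (by rw [← R.sx, e])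
  obtain ⟨n, rfl⟩ : ∃ n, t = s + n + 1 + 1 := ⟨t - s - 2, by omega⟩
  have := R.pre (s + n + 1)
  rw [e, R.next s n fun u h1 h2 => h u h1 (by omega)] at this
  refine ⟨by omega, ?_⟩
  rw [← this]
  exact (by decide : ∀ k : ZMod 4, k = k + 2 + 2) _

theorem Run.par (R : Run d D τ φ J x a r) (t : ℕ) : ∀ s, s ≤ t → x t = x s →
    r t = r s ∨ r t = r s + 2 := by
  induction t using Nat.strong_induction_on with
  | _ t ih =>
    intro s hs e
    rcases hs.eq_or_lt with rfl | hs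
    · exact Or.inl rfl
    classical
    have hP : ∃ u, u < t ∧ x u = x s ∧ s ≤ u := ⟨s, hs, rfl, le_rfl⟩
    set u := Nat.findGreatest (fun u => x u = x s) (t - 1) with hu
    have u1 : x u = x s := Nat.findGreatest_spec (P := fun u => x u = x s) (m := s) (by omega) rfl
    have u2 : s ≤ u := Nat.le_findGreatest (P := fun u => x u = x s) (by omega) rfl
    have u3 : u ≤ t - 1 := Nat.findGreatest_le _
    have c := (R.cons u t (by omega) (e.trans u1.symm) fun w w1 w2 hw =>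
      Nat.findGreatest_is_greatest (P := fun u => x u = x s) w1 (by omega) (hw.trans u1)).2
    rcases ih u (by omega) s u2 u1 with h | h
    · exact Or.inr (by rw [c, h])
    · left; rw [c, h]; exact (by decide : ∀ k : ZMod 4, k + 2 + 2 = k) _

theorem Run.norev (R : Run d D τ φ J x a r) (n : ℕ) : ∀ i j, j - i = n → i < j →
    x j = x (i + 1) → a j ≠ a i + 2 := by
  induction n using Nat.strong_induction_on with
  | _ n ih =>
    intro i j hn hij e ha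
    obtain ⟨j, rfl⟩ : ∃ m, j = m + 1 := ⟨j - 1, by omega⟩
    have key : ∀ p q p' q' u v : ZMod 4, ((p' = p + 3 ∧ u = p + 2) ∨ (p' = p + 1 ∧ u = p + 3)) →
        ((q' = q + 3 ∧ v = q + 2) ∨ (q' = q + 1 ∧ v = q + 3)) → (v = u ∨ v = u + 2) →
        q' = p + 2 → q = p' + 2 ∧ q ≠ p ∧ q ≠ p' := by decide
    obtain ⟨k1, k2, k3⟩ := key _ _ _ _ _ _ (R.sa i) (R.sa j) (R.par _ _ (by omega) e) ha
    have h1 : i ≠ j := by rintro rfl; exact k2 rfl
    have h2 : i + 1 ≠ j := by rintro rfl; exact k3 rfl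
    refine ih (j - (i + 1)) (by omega) (i + 1) j rfl (by omega) ?_ k1
    rw [R.sx j, nx, k1, add_assoc (a (i + 1)), R.dir.neg,
      (by decide : (2 + 1 : ZMod 4) = 3), R.dir.neg3] at e
    rw [R.sx (i + 1), nx, ← e]; abel

theorem Run.visit (R : Run d D τ φ J x a r) (s : ℕ) (h : ∃ t, s < t ∧ x t = x s) :
    ∃ t, s < t ∧ x (t + 1) = x s ∧ a (t + 1) = a s + 2 ∧ r (t + 1) = r s + 2 ∧
      a t = a s + 2 * (r s - a s) + 1 := by
  classical
  obtain ⟨h1, h2⟩ := Nat.find_spec h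
  obtain ⟨c1, c2⟩ := R.cons s _ h1 h2 fun u u1 u2 u3 => Nat.find_min h u2 ⟨u1, u3⟩
  obtain ⟨t, ht⟩ : ∃ t, Nat.find h = t + 1 := ⟨Nat.find h - 1, by omega⟩
  rw [ht] at h1 h2 c1 c2
  have nr : a t ≠ a s + 2 := by
    intro ha
    refine R.norev _ s t rfl (by omega) ?_ ha
    rw [R.sx t, nx, ha, add_assoc (a s), R.dir.neg,
      (by decide : (2 + 1 : ZMod 4) = 3), R.dir.neg3] at h2
    rw [R.sx s, nx, ← h2]; abel
  have key : ∀ p q q' u v : ZMod 4, (u = p + 2 ∨ u = p + 3) →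
      ((q' = q + 3 ∧ v = q + 2) ∨ (q' = q + 1 ∧ v = q + 3)) → v = u + 2 → q ≠ p + 2 →
      q' = p + 2 ∧ q = p + 2 * (u - p) + 1 := by decide
  obtain ⟨k1, k2⟩ := key _ _ _ _ _ (R.g s).hr (R.sa t) c2 nr
  exact ⟨t, by omega, h2, k1, c2, k2⟩

theorem Run.false [Finite V] (R : Run d D τ φ J x a r) (L : ℕ) (hL : Odd L)
    (h0 : ∀ v : V, L • v = 0) : False := by
  let U : V → Prop := fun u => ∀ n, ∃ s, n ≤ s ∧ x s = u
  have hU : ∀ u k, U u → U (nx d u k) := by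
    intro u k hu n
    obtain ⟨s, s1, rfl⟩ := hu n
    obtain ⟨t, t1, t2, t3, t4, t5⟩ := R.visit s (hu (s + 1))
    obtain ⟨w, w1, w2, w3, w4, w5⟩ := R.visit (t + 1) (by rw [t2]; exact hu (t + 2))
    have back : ∀ m, x (m + 1) = x s → x m = nx d (x s) (a m + 2) := by
      intro m e
      rw [← e, R.sx m, nx, nx, add_assoc (a m), R.dir.neg, (by decide : (2 + 1 : ZMod 4) = 3),
        R.dir.neg3]
      abel
    have key : ∀ k p u : ZMod 4, k = p ∨ k = p + 2 ∨ k = p + 2 * (u - p) + 1 + 2 ∨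
      k = p + 2 + 2 * (u + 2 - (p + 2)) + 1 + 2 := by decide
    rcases key k (a s) (r s) with e | e | e | e
    · exact ⟨s + 1, by omega, by rw [R.sx, e]⟩
    · exact ⟨t + 1 + 1, by omega, by rw [R.sx, t2, t3, e]⟩
    · exact ⟨t, by omega, by rw [back t t2, t5, e]⟩
    · exact ⟨w, by omega, by rw [back w (w2.trans t2), w5, t3, t4, e]⟩
  obtain ⟨u, hu⟩ := Finite.exists_infinite_fiber x
  have u0 : U u := fun n => by
    obtain ⟨s, s1, s2⟩ := (Set.infinite_coe_iff.1 hu).exists_gt n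
    exact ⟨s, s2.le, s1⟩
  obtain ⟨s, -, rfl⟩ := u0 0
  have two : ∀ n : ℕ, U (x s + (2 * n) • d (a s)) := by
    intro n
    induction n with
    | zero => simpa using u0
    | succ n ih =>
      have := hU _ (a s + 3) (hU _ (a s) ih)
      rw [nx, nx, R.dir.neg3, (by decide : ∀ k : ZMod 4, k + 3 + 1 = k)] at this
      convert this using 1
      rw [mul_add, add_smul, mul_one, two_smul]; abel
  obtain ⟨m, rfl⟩ := hL
  obtain ⟨t, -, ht⟩ := two (m + 1) 0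
  refine R.bw t s _ (R.g s).m1 (ht.trans ?_)
  rw [show 2 * (m + 1) = (2 * m + 1) + 1 by ring, add_smul, h0, one_smul, zero_add]

end Pool.Agent.H.MP_6e06a5_co
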