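import Mathlib
import Pool.Agent.H.MP_6e06a5_co.C

set_option autoImplicit false
set_option linter.unusedSectionVars false
set_option linter.unusedSimpArgs false

namespace Pool.Agent.H.MP_6e06a5_co

open Finset
open scoped symmDiff

variable {V : Type} [DecidableEq V] [AddCommGroup V] {d : ZMod 4 → V}

theorem exists_join (conn : ∀ v : V, ∃ K, Sub (EE d) K ∧ bd K = dl 0 + dl v) (D : Finset V) :
    ∃ K, Sub (EE d) K ∧ bd K = chi D + D.card • dl 0 := by
  induction D using Finset.induction_on with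
  | empty => exact ⟨∅, by simp [Sub], by ext v; simp [bd, chi]⟩
  | insert v D hv ih =>
    obtain ⟨K, k1, k2⟩ := ih
    obtain ⟨M, m1, m2⟩ := conn v
    refine ⟨K ∆ M, k1.symm m1, ?_⟩
    have : chi (insert v D) = chi D + dl v := by
      ext w
      by_cases h : w = v <;> simp [chi, dl, h, hv]
    rw [bd_symm, k2, m2, this, card_insert_of_notMem hv, succ_nsmul]
    abel

theorem conn_step (h : Dir d) (v : V) (k : ZMod 4) (n : ℕ)
    (c : ∃ K, Sub (EE d) K ∧ bd K = dl 0 + dl v) :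
    ∃ K, Sub (EE d) K ∧ bd K = dl 0 + dl (v + n • d k) := by
  induction n with
  | zero => simpa using c
  | succ n ih =>
    obtain ⟨K, k1, k2⟩ := ih
    refine ⟨K ∆ {ed d (v + n • d k) k}, k1.tog ⟨_, _, rfl⟩, ?_⟩
    rw [ed, bd_tog _ _ _ (by simpa using h.ne0 k), k2, succ_nsmul, ← add_assoc v]
    linear_combination dl_add_self (v + n • d k)

theorem main [Finite V] (h : Dir d) (L : ℕ) (hL : Odd L) (h0 : ∀ v : V, L • v = 0)
    (gen : ∀ v : V, ∃ m n : ℕ, v = m • d 0 + n • d 1) (D : Finset V) (hD : Even D.card) :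
    ∃ J, Sub (EE d) J ∧ bd J = chi D ∧ (∀ K, Sub (EE d) K → bd K = chi D → J.card ≤ K.card) ∧
      ∀ v ∈ D, (J.filter (v ∈ ·)).card = 1 := by
  classical
  have conn : ∀ v : V, ∃ K, Sub (EE d) K ∧ bd K = dl 0 + dl v := by
    intro v
    obtain ⟨m, n, rfl⟩ := gen v
    have := conn_step h _ 1 n (conn_step h 0 0 m ⟨∅, by simp [Sub], by
      rw [dl_add_self]; ext v; simp [bd]⟩)
    rwa [zero_add] at this
  obtain ⟨K0, k1, k2⟩ := exists_join conn D
  obtain ⟨m, hm⟩ := hD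
  rw [hm, add_nsmul, fun_add_self, add_zero] at k2
  obtain ⟨K1, ⟨a1, a2⟩, a3⟩ := Set.exists_min_image {K | Sub (EE d) K ∧ bd K = chi D} card
    (Set.toFinite _) ⟨K0, k1, k2⟩
  obtain ⟨J, ⟨j1, j2, j3⟩, j4⟩ := Set.exists_min_image
    {K | Sub (EE d) K ∧ bd K = chi D ∧ K.card = K1.card} (fun K => ∑ e ∈ K, cD D e)
    (Set.toFinite _) ⟨K1, a1, a2, rfl⟩
  have o : Opt d D K1.card (∑ e ∈ J, cD D e) :=
    ⟨fun K h1 h2 => a3 K ⟨h1, h2⟩, fun K h1 h2 h3 => j4 K ⟨h1, h2, h3⟩⟩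
  refine ⟨J, j1, j2, fun K h1 h2 => j3 ▸ o.m1 K h1 h2, fun v hv => ?_⟩
  have no : ∀ a, ed d v a ∈ J → ed d v (a + 1) ∈ J → ed d v (a + 2) ∈ J → False := by
    intro a m1 m2 m3
    obtain ⟨J', x, a', r, R⟩ := exists_run h o ⟨j1, j2, j3, rfl, hv, m1, m2, m3, Or.inl rfl⟩
    exact R.false L hL h0
  have hb := h.bd_local j1 v 0
  rw [j2, chi, if_pos hv] at hb
  have n0 := no 0
  have n1 := no 1
  have n2 := no 2
  have n3 := no 3
  rw [h.card_local j1, card_filter, sum4 _ 0]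
  rw [(by decide : (1 + 1 : ZMod 4) = 0 + 2), (by decide : (1 + 2 : ZMod 4) = 0 + 3),
    ← zero_add (1 : ZMod 4)] at n1
  rw [(by decide : (2 + 1 : ZMod 4) = 0 + 3), (by decide : (2 + 2 : ZMod 4) = 0),
    ← zero_add (2 : ZMod 4)] at n2
  rw [(by decide : (3 + 1 : ZMod 4) = 0), (by decide : (3 + 2 : ZMod 4) = 0 + 1),
    ← zero_add (3 : ZMod 4)] at n3
  by_cases c0 : ed d v 0 ∈ J <;> by_cases c1 : ed d v (0 + 1) ∈ J <;>
    by_cases c2 : ed d v (0 + 2) ∈ J <;> by_cases c3 : ed d v (0 + 3) ∈ J <;>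
    simp only [c0, c1, c2, c3, if_true, if_false, forall_true_left] at hb n0 n1 n2 n3 ⊢ <;>
    exact absurd hb (by decide)

end Pool.Agent.H.MP_6e06a5_co
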